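import Mathlib

namespace Pool.Agent.Results.MP_4bc86c_co.NoRainbow

open SimpleGraph Finset

/-- The elementary abelian group of order `2 ^ k`. -/
abbrev V (k : ℕ) : Type := Fin k → ZMod 2

theorem add_self_V {k : ℕ} (x : V k) : x + x = 0 := by
  funext i
  have : ∀ a : ZMod 2, a + a = 0 := by decide
  exact this (x i)

theorem add_eq_zero_V {k : ℕ} {x y : V k} : x + y = 0 ↔ x = y := by
  constructor
  · intro h
    have : x + y + y = y := by rw [h, zero_add]
    rwa [add_assoc, add_self_V, add_zero] at this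
  · rintro rfl
    exact add_self_V x

theorem card_V (k : ℕ) : Fintype.card (V k) = 2 ^ k := by
  simp [V, ZMod.card]

/-- the sum of all vectors of `V k` vanishes for `k ≥ 2` -/
theorem sum_all {k : ℕ} (hk : 2 ≤ k) : ∑ x : V k, x = 0 := by
  funext i
  rw [Finset.sum_apply, Pi.zero_apply]
  obtain ⟨j, hj⟩ : ∃ j : Fin k, j ≠ i := by
    have : Nontrivial (Fin k) := Fin.nontrivial_iff_two_le.mpr hk
    exact exists_ne i
  refine Finset.sum_involution (fun x _ => x + Pi.single j 1) ?_ ?_ ?_ ?_
  · intro x _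
    have : ∀ a : ZMod 2, a + a = 0 := by decide
    simp [Pi.single_apply, hj.symm, this]
  · intro x _ _ h
    have h1 := congrFun h j
    simp at h1
  · intro x _
    exact Finset.mem_univ _
  · intro x _
    rw [add_assoc, add_self_V, add_zero]

/-- A fixed numbering of the group. -/
noncomputable def num (k : ℕ) : Fin (2 ^ k) ≃ V k :=
  (Fintype.equivFinOfCardEq (card_V k)).symm

/-- The colour of a pair, as a group element. -/
noncomputable def val {k : ℕ} (e : Sym2 (Fin (2 ^ k))) : V k :=
  Sym2.lift ⟨fun a b => num k a + num k b, fun a b => add_comm _ _⟩ e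

theorem val_mk {k : ℕ} (a b : Fin (2 ^ k)) : val s(a, b) = num k a + num k b := rfl

theorem val_ne_zero {k : ℕ} (e : (⊤ : SimpleGraph (Fin (2 ^ k))).edgeSet) :
    val (e : Sym2 (Fin (2 ^ k))) ≠ 0 := by
  obtain ⟨e, he⟩ := e
  induction e using Sym2.ind with
  | _ a b =>
    rw [mem_edgeSet, top_adj] at he
    show val s(a, b) ≠ 0
    rw [val_mk]
    intro h
    exact he ((num k).injective (add_eq_zero_V.mp h))

theorem card_nonzero (k : ℕ) : Fintype.card {x : V k // x ≠ 0} = 2 ^ k - 1 := by
  rw [Fintype.card_subtype_compl, card_V]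
  simp

/-- A numbering of the nonzero elements. -/
noncomputable def numCol (k : ℕ) : {x : V k // x ≠ 0} ≃ Fin (2 ^ k - 1) :=
  Fintype.equivFinOfCardEq (card_nonzero k)

/-- The colouring. -/
noncomputable def col (k : ℕ) :
    (⊤ : SimpleGraph (Fin (2 ^ k))).lineGraph.Coloring (Fin (2 ^ k - 1)) :=
  Coloring.mk (fun e => numCol k ⟨val (e : Sym2 (Fin (2 ^ k))), val_ne_zero e⟩) (by
    intro e f hef h
    have h1 := (numCol k).injective h
    have h2 : val (e : Sym2 (Fin (2 ^ k))) = val (f : Sym2 (Fin (2 ^ k))) :=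
      congrArg Subtype.val h1
    rw [lineGraph_adj_iff_exists] at hef
    obtain ⟨hne, v, hv1, hv2⟩ := hef
    apply hne
    obtain ⟨a, ha⟩ := Sym2.mem_iff_exists.mp hv1
    obtain ⟨b, hb⟩ := Sym2.mem_iff_exists.mp hv2
    rw [ha, hb, val_mk, val_mk] at h2
    have h3 : a = b := (num k).injective (add_left_cancel h2)
    apply Subtype.ext
    rw [ha, hb, h3])

theorem col_apply {k : ℕ} (e : (⊤ : SimpleGraph (Fin (2 ^ k))).edgeSet) :
    col k e = numCol k ⟨val (e : Sym2 (Fin (2 ^ k))), val_ne_zero e⟩ := rfl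

theorem walk_sum {k : ℕ} {G : SimpleGraph (Fin (2 ^ k))} {u w : Fin (2 ^ k)} (p : G.Walk u w) :
    (p.edges.map val).sum = num k u + num k w := by
  induction p with
  | nil => simp [add_self_V]
  | @cons a b c h p ih =>
    rw [Walk.edges_cons, List.map_cons, List.sum_cons, ih, val_mk]
    have : num k a + num k b + (num k b + num k c) = num k a + (num k b + num k b) + num k c := by
      abel
    rw [this, add_self_V, add_zero]

theorem chromatic (k : ℕ) (hk : 3 ≤ k) :
    (⊤ : SimpleGraph (Fin (2 ^ k))).lineGraph.chromaticNumber = ((2 ^ k - 1 : ℕ) : ℕ∞) := by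
  apply le_antisymm
  · have h := (col k).colorable
    rw [Fintype.card_fin] at h
    exact h.chromaticNumber_le
  · have hpos : 0 < 2 ^ k := by positivity
    let z : Fin (2 ^ k) := ⟨0, hpos⟩
    let f : {x : Fin (2 ^ k) // x ≠ z} → (⊤ : SimpleGraph (Fin (2 ^ k))).edgeSet :=
      fun x => ⟨s(z, x.1), by rw [mem_edgeSet, top_adj]; exact x.2.symm⟩
    have hf : Function.Injective f := by
      intro x y hxy
      have h1 : s(z, x.1) = s(z, y.1) := congrArg Subtype.val hxy
      have h2 := Sym2.congr_right.mp h1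
      exact Subtype.ext h2
    have hcl : (⊤ : SimpleGraph (Fin (2 ^ k))).lineGraph.IsClique
        ((Finset.univ.map ⟨f, hf⟩ : Finset _) : Set _) := by
      intro e he e' he' hne
      rw [Finset.coe_map] at he he'
      obtain ⟨x, _, rfl⟩ := he
      obtain ⟨y, _, rfl⟩ := he'
      rw [lineGraph_adj_iff_exists]
      exact ⟨hne, z, Sym2.mem_mk_left _ _, Sym2.mem_mk_left _ _⟩
    have h := hcl.card_le_chromaticNumber
    rw [Finset.card_map, Finset.card_univ, Fintype.card_subtype_compl, Fintype.card_fin] at h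
    simpa using h

/-- For every `k ≥ 3`, writing `n = 2 ^ k`, some proper edge colouring `c` of the complete graph
on `n` vertices with `n - 1` colours, which is the chromatic index (the chromatic number of the
line graph), has no rainbow cycle of length `n - 2`: on every cycle of that length two different
edges get the same colour. -/
theorem result : ∀ k : ℕ, 3 ≤ k →
    ∃ c : (⊤ : SimpleGraph (Fin (2 ^ k))).lineGraph.Coloring (Fin (2 ^ k - 1)),
      (⊤ : SimpleGraph (Fin (2 ^ k))).lineGraph.chromaticNumber = ((2 ^ k - 1 : ℕ) : ℕ∞) ∧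
      ∀ (u : Fin (2 ^ k)) (p : (⊤ : SimpleGraph (Fin (2 ^ k))).Walk u u),
        p.IsCycle → p.length = 2 ^ k - 2 →
        ∃ (e f : (⊤ : SimpleGraph (Fin (2 ^ k))).edgeSet),
          (e : Sym2 (Fin (2 ^ k))) ∈ p.edges ∧ (f : Sym2 (Fin (2 ^ k))) ∈ p.edges ∧
          e ≠ f ∧ c e = c f := by
  intro k hk
  refine ⟨col k, chromatic k hk, ?_⟩
  intro u p hp hlen
  by_contra hcon
  push Not at hcon
  have hnd : p.edges.Nodup := hp.isCircuit.isTrail.edges_nodup
  have hmem : ∀ e ∈ p.edges, e ∈ (⊤ : SimpleGraph (Fin (2 ^ k))).edgeSet :=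
    fun e he => p.edges_subset_edgeSet he
  have hinj : ∀ e ∈ p.edges, ∀ f ∈ p.edges, val e = val f → e = f := by
    intro e he f hf hef
    by_contra hne
    refine hcon ⟨e, hmem e he⟩ ⟨f, hmem f hf⟩ he hf ?_ ?_
    · intro h
      exact hne (congrArg Subtype.val h)
    · rw [col_apply, col_apply]
      congr 1
      exact Subtype.ext hef
  have hnd2 : (p.edges.map val).Nodup := hnd.map_on (fun e he f hf h => hinj e he f hf h)
  have hlen2 : (p.edges.map (val (k := k))).length = 2 ^ k - 2 := by
    rw [List.length_map, Walk.length_edges, hlen]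
  have hsum : (p.edges.map (val (k := k))).sum = 0 := by
    rw [walk_sum, add_self_V]
  have h0 : (0 : V k) ∉ p.edges.map (val (k := k)) := by
    intro h
    rw [List.mem_map] at h
    obtain ⟨e, he, h⟩ := h
    exact val_ne_zero ⟨e, hmem e he⟩ h
  let S : Finset (V k) := (p.edges.map (val (k := k))).toFinset
  have hScard : S.card = 2 ^ k - 2 := by
    rw [List.toFinset_card_of_nodup hnd2, hlen2]
  have hSsum : ∑ x ∈ S, x = 0 := by
    have := List.sum_toFinset (fun x : V k => x) hnd2
    rw [this, List.map_id', hsum]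
  have hS0 : (0 : V k) ∉ S := by
    rw [List.mem_toFinset]
    exact h0
  -- the complement has exactly two elements, one of them zero
  have h8 : 8 ≤ 2 ^ k := by
    calc 8 = 2 ^ 3 := by norm_num
      _ ≤ 2 ^ k := Nat.pow_le_pow_right (by norm_num) hk
  have hTcard : (insert 0 S)ᶜ.card = 1 := by
    rw [Finset.card_compl, card_V, Finset.card_insert_of_notMem hS0, hScard]
    omega
  obtain ⟨m, hm⟩ := Finset.card_eq_one.mp hTcard
  have hmne : m ≠ 0 := by
    intro h
    have : m ∈ (insert 0 S)ᶜ := by rw [hm]; exact Finset.mem_singleton_self m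
    rw [Finset.mem_compl] at this
    apply this
    rw [h]
    exact Finset.mem_insert_self _ _
  have htot := sum_all (k := k) (by omega)
  have hsplit : ∑ x ∈ insert 0 S, x + ∑ x ∈ (insert 0 S)ᶜ, x = ∑ x : V k, x :=
    Finset.sum_add_sum_compl _ _
  rw [htot, hm, Finset.sum_singleton, Finset.sum_insert hS0, hSsum, add_zero, zero_add] at hsplit
  exact hmne hsplit

end Pool.Agent.Results.MP_4bc86c_co.NoRainbow
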